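import Mathlib
import Pool.Agent.W188.EM.All

/-!
# Mixed moments of zeta against the moments of zeta

For `1 ≤ m ≤ k` the mixed moment `∫ ζ^{k+m} conj(ζ)^{k-m} g` on the critical line, with a Gaussian weight `g` of width
between `T / (4 B √(log T))` and `T / (B √(log T))` around `T`, is in absolute value at most
`cos(π/(⌊(k-2)/m⌋+2)) + ε` times `∫ |ζ|^{2k} g` (for `m ≥ k - 1` the cosine is `0`).  Unconditional.

Plan: the `N`-th Fourier coefficients of the measure `|ζ|^{2k} g dt` with respect to the argument of `ζ²`, `N ≥ k - 1`,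
are small (quadrature formulas for `N` lines, project QS), and nonnegative trigonometric polynomials (Fejér) give the
bound for the other coefficients.  Parts were formalized by the team (see the imported files), plan and assembly by
helper188.
-/

set_option autoImplicit false

open Filter Topology Set MeasureTheory

namespace Pool.Agent.Results.MP_80d0cf_nt.MixedMoments

/-- The value `ζ(1/2 + it)`. -/
noncomputable def z (t : ℝ) : ℂ := riemannZeta (1 / 2 + t * Complex.I)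

open Pool.Agent.W188.QS Pool.Agent.W188.EM

lemma z_eq (t : ℝ) : z t = riemannZeta (cp t) := rfl

lemma Zk_z (k : ℕ) (t : ℝ) : ‖z t‖ ^ (2 * k) = Zk k t := rfl

lemma alg {k m : ℕ} (hmk : m ≤ k) {t : ℝ} (ht : 1 ≤ t) :
    (starRingEnd ℂ) (z t ^ (k + m) * (starRingEnd ℂ) (z t) ^ (k - m)) =
      ((Zk k t : ℝ) : ℂ) * XX (cp t) ^ m := by
  have hfe : (starRingEnd ℂ) (z t) = XX (cp t) * z t := a_line.2.2.1 t ht
  have h3 : z t * (starRingEnd ℂ) (z t) = ((‖z t‖ ^ 2 : ℝ) : ℂ) := by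
    rw [Complex.mul_conj, Complex.normSq_eq_norm_sq]
  have h4 : (starRingEnd ℂ) (z t) ^ 2 = XX (cp t) * ((‖z t‖ ^ 2 : ℝ) : ℂ) := by
    rw [← h3]
    nth_rw 1 [sq, hfe]
    rw [hfe]
    ring
  rw [map_mul, map_pow, map_pow, Complex.conj_conj]
  have e1 : k + m = 2 * m + (k - m) := by omega
  rw [e1, pow_add, pow_mul, h4, mul_assoc, ← mul_pow, mul_comm ((starRingEnd ℂ) (z t)) (z t), h3, mul_pow]
  have e2 : (((‖z t‖ ^ 2 : ℝ) : ℂ) ^ m) * ((‖z t‖ ^ 2 : ℝ) : ℂ) ^ (k - m) = ((Zk k t : ℝ) : ℂ) := by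
    rw [← pow_add, show m + (k - m) = k by omega, ← Complex.ofReal_pow, ← pow_mul]
    rfl
  rw [← e2]
  ring

lemma conj_interval {f : ℝ → ℂ} {a b : ℝ} (hab : a ≤ b) :
    (starRingEnd ℂ) (∫ t in a..b, f t) = ∫ t in a..b, (starRingEnd ℂ) (f t) := by
  rw [intervalIntegral.integral_of_le hab, intervalIntegral.integral_of_le hab]
  exact integral_conj.symm

lemma norm_eq {k m : ℕ} (hmk : m ≤ k) {T Δ : ℝ} (hT : 2 ≤ T) :
    ‖∫ t in (T / 2)..(3 * T / 2), z t ^ (k + m) * (starRingEnd ℂ) (z t) ^ (k - m) *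
      (Real.exp (-((t - T) / Δ) ^ 2) : ℂ)‖ = ‖AA k m T Δ‖ := by
  rw [← Complex.norm_conj]
  have h : (starRingEnd ℂ) (∫ t in (T / 2)..(3 * T / 2), z t ^ (k + m) * (starRingEnd ℂ) (z t) ^ (k - m) *
      (Real.exp (-((t - T) / Δ) ^ 2) : ℂ)) = AA k m T Δ := by
    rw [conj_interval (by linarith)]
    unfold AA
    apply intervalIntegral.integral_congr
    intro t ht
    rw [uIcc_of_le (by linarith)] at ht
    simp only
    rw [map_mul, alg hmk (by linarith [ht.1]), Complex.conj_ofReal]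
    simp only [gg]
    push_cast
    ring
  rw [h]

lemma A0_eq (k : ℕ) (T Δ : ℝ) :
    ∫ t in (T / 2)..(3 * T / 2), ‖z t‖ ^ (2 * k) * Real.exp (-((t - T) / Δ) ^ 2) = A0 k T Δ := rfl

theorem result (k m : ℕ) (hm : 1 ≤ m) (hmk : m ≤ k) :
    -- the main inequality
    (∀ ε : ℝ, 0 < ε → ∃ B₀ : ℝ, ∀ B : ℝ, B₀ ≤ B → ∃ T₀ : ℝ, ∀ T Δ : ℝ, T₀ ≤ T → 0 < Δ →
      T ≤ 4 * B * Δ * √(Real.log T) → B * Δ * √(Real.log T) ≤ T →
      ‖∫ t in (T / 2)..(3 * T / 2), z t ^ (k + m) * (starRingEnd ℂ) (z t) ^ (k - m) *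
          (Real.exp (-((t - T) / Δ) ^ 2) : ℂ)‖ ≤
        (Real.cos (Real.pi / (((k - 2) / m : ℕ) + 2)) + ε) *
          ∫ t in (T / 2)..(3 * T / 2), ‖z t‖ ^ (2 * k) * Real.exp (-((t - T) / Δ) ^ 2)) ∧
    -- explicit form in the case `m = k - 1`
    (k = m + 1 → ∃ B₀ : ℝ, ∀ B : ℝ, B₀ ≤ B → ∃ C T₀ : ℝ, ∀ T Δ : ℝ, T₀ ≤ T → 0 < Δ →
      T ≤ 4 * B * Δ * √(Real.log T) → B * Δ * √(Real.log T) ≤ T →
      ‖∫ t in (T / 2)..(3 * T / 2), z t ^ (k + m) * (starRingEnd ℂ) (z t) ^ (k - m) *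
          (Real.exp (-((t - T) / Δ) ^ 2) : ℂ)‖ ≤ C * Δ * Real.log T ^ (2 * (k : ℝ) - 1 / 2)) ∧
    -- the moment is large
    (∀ B : ℝ, 1 ≤ B → ∃ c T₀ : ℝ, 0 < c ∧ ∀ T Δ : ℝ, T₀ ≤ T → 0 < Δ →
      T ≤ 4 * B * Δ * √(Real.log T) → B * Δ * √(Real.log T) ≤ T →
      c * (Δ * Real.log T ^ ((k : ℝ) ^ 2)) ≤
        ∫ t in (T / 2)..(3 * T / 2), ‖z t‖ ^ (2 * k) * Real.exp (-((t - T) / Δ) ^ 2)) := by
  have hk : 1 ≤ k := hm.trans hmk
  refine ⟨fun ε hε => ?_, fun hkm => ?_, fun B hB => ?_⟩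
  · obtain ⟨B₀, -, h⟩ := main a_coav a_posi a_line a_quad a_qs hk hm hε
    refine ⟨B₀, fun B hB => ?_⟩
    obtain ⟨T₀, hT₀⟩ := eventually_atTop.1 (h B hB)
    refine ⟨max T₀ 2, fun T Δ hT hΔ hu hl => ?_⟩
    rw [norm_eq hmk ((le_max_right _ _).trans hT), A0_eq]
    exact hT₀ T ((le_max_left _ _).trans hT) Δ hΔ hu hl
  · obtain ⟨B₀, -, h⟩ := mixed a_coav a_line a_quad a_qs hk hm (by omega)
    refine ⟨B₀, fun B hB => ?_⟩
    obtain ⟨C, T₀, -, h1⟩ := h B hB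
    refine ⟨C, max T₀ 2, fun T Δ hT hΔ hu hl => ?_⟩
    rw [norm_eq hmk ((le_max_right _ _).trans hT)]
    have h2 := h1 T Δ ((le_max_left _ _).trans hT) hΔ hu hl
    have h3 : qe k m = 2 * (k : ℝ) - 1 / 2 := by
      unfold qe
      rw [if_pos hkm.symm]
    rw [h3] at h2
    exact h2
  · obtain ⟨c, T₁, hc, h⟩ := lowloc hk
    obtain ⟨T₂, h2⟩ := eventually_atTop.1 (window hB)
    refine ⟨c, max T₁ T₂, hc, fun T Δ hT hΔ hu hl => ?_⟩
    obtain ⟨h3, h4⟩ := h2 T ((le_max_right _ _).trans hT) Δ hΔ hu hl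
    exact h T Δ ((le_max_left _ _).trans hT) h3 h4

end Pool.Agent.Results.MP_80d0cf_nt.MixedMoments
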